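import Pool.Agent.helper20.KP.Strip

/-!
# Path vertex covers of planar triangle-free graphs: a lower bound for all k (MP_9d813a_co)

`c2 k` is the constant of the problem: the limes superior of `fmax k n / n`, where `fmax k n` is
the maximum of the `k`-path vertex cover number over the planar triangle-free graphs with `n`
vertices.
-/

set_option autoImplicit false

namespace Pool.Agent.Results.MP_9d813a_co.PathCoverAllK

open Pool.Agent.helper20.KP

theorem result : ∀ k L : ℕ, 1 ≤ k → 1 ≤ L → k ≤ L ^ 2 + 2 → 1 / (2 * (L : ℝ) + 1) ≤ c2 k :=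
  fun _ _ h1 h2 h3 => c2_strip h1 h2 h3

end Pool.Agent.Results.MP_9d813a_co.PathCoverAllK
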