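import Pool.Agent.helper20.KP.GadA
import Pool.Agent.helper20.KP.GadB
import Pool.Agent.helper20.KP.GadC
import Pool.Agent.helper20.KP.GadD
import Pool.Agent.helper20.KP.GadE
import Pool.Agent.helper20.KP.GadF
import Pool.Agent.helper20.KP.GadG
import Pool.Agent.helper20.KP.GadH

/-!
# Path vertex covers of planar triangle-free graphs: lower bounds (MP_9d813a_co)

`c2 k` is the constant of the problem: the limes superior of `fmax k n / n`, where `fmax k n` is
the maximum of the `k`-path vertex cover number over the planar triangle-free graphs with `n`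
vertices.
-/

set_option autoImplicit false

namespace Pool.Agent.Results.MP_9d813a_co.PathCoverLowerBounds

open Pool.Agent.helper20.KP

theorem result :
    (5 / 9 : ℝ) ≤ c2 3 ∧ (7 / 15 : ℝ) ≤ c2 4 ∧ (5 / 12 : ℝ) ≤ c2 5 ∧ (2 / 5 : ℝ) ≤ c2 6 ∧
      (5 / 14 : ℝ) ≤ c2 7 ∧ (1 / 3 : ℝ) ≤ c2 8 ∧ (5 / 16 : ℝ) ≤ c2 9 ∧ (5 / 17 : ℝ) ≤ c2 10 :=
  ⟨c2_3, c2_4, c2_5, c2_6, c2_7, c2_8, c2_9, c2_10⟩

end Pool.Agent.Results.MP_9d813a_co.PathCoverLowerBounds
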